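import Pool.Agent.N692.TS.Sup
import Pool.Agent.N692.TS.Pre
import Pool.Agent.N24.RW.Stm

set_option autoImplicit false
set_option linter.unusedSectionVars false

/-!
# Random orbits of integral matrices: good primes for the coefficient vectors

The local criterion (`LocGood`, `code`, the transfer) is copied from `N692/TS/Main` (helper692), the
engine for random orbits is `N24/RW` (helper24).
-/

namespace Pool.Agent.N681.HO

open NumberField IsDedekindDomain Pool.Agent.TH377.Sup Finset Filter MeasureTheory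

open Pool.Agent.N692.TS (vec Gd mem_Gd dens_Gd supply_sum)
open Pool.Agent.N24.RW

section

variable {K : Type} [Field K]

/-- a prime ideal of norm greater than `M` at which the polynomial is good -/
def LocGood [NumberField K] (d M : ℕ) (y : Fin (d + 2) → 𝓞 K) : Prop :=
  ∃ v : HeightOneSpectrum (𝓞 K), ((M.factorial : ℕ) : 𝓞 K) ∉ v.asIdeal ∧ y 0 ∈ v.asIdeal ∧
    y 0 ∉ v.asIdeal ^ 2 ∧ IrrMod v d fun i => y i.succ

theorem LocGood.mono [NumberField K] {d M M' : ℕ} (h : M ≤ M') {y : Fin (d + 2) → 𝓞 K}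
    (hy : LocGood d M' y) : LocGood d M y := by
  obtain ⟨v, h1, h2⟩ := hy
  refine ⟨v, fun h3 => h1 ?_, h2⟩
  obtain ⟨k, hk⟩ := Nat.factorial_dvd_factorial h
  rw [hk]
  push_cast
  exact Ideal.mul_mem_right _ _ h3

theorem not_mem_of_norm [NumberField K] (v : HeightOneSpectrum (𝓞 K)) {p M : ℕ} (hp : p.Prime)
    (hM : M < p) (hv : Ideal.absNorm v.asIdeal = p) : ((M.factorial : ℕ) : 𝓞 K) ∉ v.asIdeal := by
  intro h
  have hpv : (p : 𝓞 K) ∈ v.asIdeal := by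
    rw [← hv]
    exact Ideal.absNorm_mem _
  have hcop : Nat.Coprime p M.factorial := (Nat.Prime.coprime_iff_not_dvd hp).mpr (fun h =>
    absurd ((Nat.Prime.dvd_factorial hp).mp h) (by omega))
  have h1 : IsCoprime ((p : ℤ)) ((M.factorial : ℤ)) := Nat.isCoprime_iff_coprime.mpr hcop
  obtain ⟨a, b, hab⟩ := h1
  apply v.isPrime.ne_top
  rw [Ideal.eq_top_iff_one]
  have h2 : (1 : 𝓞 K) = (a : 𝓞 K) * (p : 𝓞 K) + (b : 𝓞 K) * ((M.factorial : ℕ) : 𝓞 K) := by
    have := congrArg (fun z : ℤ => (z : 𝓞 K)) hab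
    push_cast at this
    rw [← this]
  rw [h2]
  exact Ideal.add_mem _ (Ideal.mul_mem_left _ _ hpv) (Ideal.mul_mem_left _ _ h)

/-- the exceptional vectors of coordinates are a pronull set -/
theorem pronull_bad (hC : S_CRIT) (hD : S_CLO) [NumberField K] {m : ℕ}
    (ω : Module.Basis (Fin m) ℤ (𝓞 K)) (d : ℕ) (hd : 2 ≤ d) (M : ℕ) :
    ProNull {x : Fin (d + 2) × Fin m → ℤ | ¬ LocGood d M (vec ω d x)} := by
  classical
  have hd0 : (0 : ℝ) < d := by exact_mod_cast (by omega : 0 < d)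
  let PB : ℕ → Prop := fun p => ∃ v : HeightOneSpectrum (𝓞 K), Ideal.absNorm v.asIdeal = p
  let Ω : ∀ p : ℕ, Set (Fin (d + 2) × Fin m → ZMod (p ^ 2)) := fun p =>
    if h : PB p then Gd ω d h.choose p h.choose_spec else ∅
  let w : ℕ → ℝ := fun p =>
    if p.Prime ∧ PB p then 1 / (4 * d) * (1 / (p : ℝ) - 1 / (p : ℝ) ^ 2) else 0
  have hpos : ∀ p : ℕ, p.Prime → (0 : ℝ) ≤ 1 / (4 * d) * (1 / (p : ℝ) - 1 / (p : ℝ) ^ 2) := by
    intro p hp
    have h1 : (1 : ℝ) ≤ p := by exact_mod_cast hp.one_lt.le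
    have h2 : 1 / (p : ℝ) ^ 2 ≤ 1 / (p : ℝ) := by
      apply one_div_le_one_div_of_le (by linarith)
      nlinarith
    exact mul_nonneg (by positivity) (by linarith)
  have hw0 : ∀ p, 0 ≤ w p := by
    intro p
    simp only [w]
    split_ifs with h
    · exact hpos p h.1
    · exact le_rfl
  have hcrit := hC (Fin (d + 2) × Fin m) (fun p => p ^ 2)
    (fun p hp => Nat.one_le_iff_ne_zero.2 (pow_ne_zero 2 hp.ne_zero))
    (fun p p' hp hp' hne => Nat.Coprime.pow 2 2 ((Nat.coprime_primes hp hp').2 hne))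
    Ω M w hw0 ?_ ?_
  · refine (hD (Fin (d + 2) × Fin m)).1 _ _ ?_ hcrit
    intro x hx p hp hMp hmem
    apply hx
    by_cases h : PB p
    · have hΩ : Ω p = Gd ω d h.choose p h.choose_spec := by
        simp only [Ω]
        rw [dif_pos h]
      rw [hΩ] at hmem
      exact ⟨h.choose, not_mem_of_norm h.choose hp hMp h.choose_spec,
        mem_Gd ω d h.choose p h.choose_spec x hmem⟩
    · have hΩ : Ω p = ∅ := by
        simp only [Ω]
        rw [dif_neg h]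
      rw [hΩ] at hmem
      exact absurd hmem (Set.notMem_empty _)
  · intro hs
    obtain ⟨P, v, hP, hPsum⟩ := supply_sum K M
      (4 * d * ((∑' p : ℕ, if p.Prime then w p else 0) + 1))
    have h1 : ∑ p ∈ P, (if p.Prime then w p else 0) ≤ ∑' p : ℕ, if p.Prime then w p else 0 := by
      refine hs.sum_le_tsum P fun p _ => ?_
      split_ifs
      · exact hw0 p
      · exact le_rfl
    have h2 : ∑ p ∈ P, (if p.Prime then w p else 0) =
        1 / (4 * d) * ∑ p ∈ P, (1 / (p : ℝ) - 1 / (p : ℝ) ^ 2) := by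
      rw [Finset.mul_sum]
      refine Finset.sum_congr rfl fun p hp => ?_
      rw [if_pos (hP p hp).1]
      simp only [w]
      rw [if_pos ⟨(hP p hp).1, v p, (hP p hp).2.2⟩]
    have h3 : (∑' p : ℕ, if p.Prime then w p else 0) + 1 ≤
        1 / (4 * d) * ∑ p ∈ P, (1 / (p : ℝ) - 1 / (p : ℝ) ^ 2) := by
      rw [one_div_mul_eq_div, le_div_iff₀ (by positivity)]
      linarith
    linarith
  · intro p hp _
    simp only [w]
    split_ifs with h
    · have hΩ : Ω p = Gd ω d h.2.choose p h.2.choose_spec := by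
        simp only [Ω]
        rw [dif_pos h.2]
      rw [hΩ]
      have h1 := dens_Gd ω d h.2.choose p h.2.choose_spec hd hp
      unfold Pool.Agent.N666.TM.dens at h1
      have hp0 : (0 : ℝ) < p := by exact_mod_cast hp.pos
      rw [le_div_iff₀ (by push_cast; positivity)] at h1
      exact h1
    · rw [zero_mul]
      positivity

/-! ### isomorphic rings -/

/-- the structure constants of the ring of integers in an integral basis -/
noncomputable def code {m : ℕ} (ω : Module.Basis (Fin m) ℤ (𝓞 K)) (q : Fin m × Fin m × Fin m) : ℤ :=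
  ω.repr (ω q.1 * ω q.2.1) q.2.2

end

section transfer

variable {K₀ K : Type} [Field K₀] [Field K] {m : ℕ}
  (ω₀ : Module.Basis (Fin m) ℤ (𝓞 K₀)) (ω : Module.Basis (Fin m) ℤ (𝓞 K))

theorem exists_equiv (h : code ω₀ = code ω) :
    ∃ e : 𝓞 K₀ ≃+* 𝓞 K, ∀ j, e (ω₀ j) = ω j := by
  let f : 𝓞 K₀ ≃ₗ[ℤ] 𝓞 K := ω₀.equiv ω (Equiv.refl _)
  have hf : ∀ j, f (ω₀ j) = ω j := fun j => by simp [f]
  have hmulb : ∀ i j, f (ω₀ i * ω₀ j) = f (ω₀ i) * f (ω₀ j) := by
    intro i j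
    rw [hf, hf]
    have h1 : ω₀ i * ω₀ j = ∑ k, code ω₀ (i, j, k) • ω₀ k := (ω₀.sum_repr _).symm
    have h2 : ω i * ω j = ∑ k, code ω (i, j, k) • ω k := (ω.sum_repr _).symm
    rw [h1, h2, map_sum, h]
    refine Finset.sum_congr rfl fun k _ => ?_
    rw [map_zsmul, hf]
  have hmul : ∀ x y, f (x * y) = f x * f y := by
    intro x y
    have hB : ((LinearMap.mul ℤ (𝓞 K₀)).compr₂ f.toLinearMap) =
        (LinearMap.mul ℤ (𝓞 K)).compl₁₂ f.toLinearMap f.toLinearMap := by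
      refine ω₀.ext fun i => ω₀.ext fun j => ?_
      simpa using hmulb i j
    have := congrArg (fun g => g x y) hB
    simpa using this
  exact ⟨{ f with map_mul' := hmul, map_add' := map_add f }, hf⟩

theorem locGood_transfer [NumberField K₀] [NumberField K] (e : 𝓞 K₀ ≃+* 𝓞 K) (d M : ℕ)
    (y : Fin (d + 2) → 𝓞 K₀) (h : LocGood d M y) : LocGood d M (fun i => e (y i)) := by
  obtain ⟨v, h1, h2, h3, h4, h5⟩ := h
  have hmem : ∀ (I : Ideal (𝓞 K₀)) (x : 𝓞 K₀), e x ∈ I.map (e : 𝓞 K₀ →+* 𝓞 K) ↔ x ∈ I := by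
    intro I x
    change e x ∈ Ideal.map e I ↔ x ∈ I
    rw [Ideal.mem_map_of_equiv]
    constructor
    · rintro ⟨z, hz, hzx⟩
      rwa [← e.injective hzx]
    · intro hx
      exact ⟨x, hx, rfl⟩
  have hprime : (v.asIdeal.map (e : 𝓞 K₀ →+* 𝓞 K)).IsPrime :=
    Ideal.map_isPrime_of_equiv e
  have hbot : v.asIdeal.map (e : 𝓞 K₀ →+* 𝓞 K) ≠ ⊥ := by
    intro hb
    apply v.ne_bot
    exact (Ideal.map_eq_bot_iff_of_injective (f := (e : 𝓞 K₀ →+* 𝓞 K)) e.injective).mp hb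
  have hpow : v.asIdeal.map (e : 𝓞 K₀ →+* 𝓞 K) ^ 2 = (v.asIdeal ^ 2).map (e : 𝓞 K₀ →+* 𝓞 K) :=
    (Ideal.map_pow _ _ _).symm
  refine ⟨⟨v.asIdeal.map (e : 𝓞 K₀ →+* 𝓞 K), hprime, hbot⟩, ?_, ?_, ?_, ?_, ?_⟩
  · change ((M.factorial : ℕ) : 𝓞 K) ∉ v.asIdeal.map (e : 𝓞 K₀ →+* 𝓞 K)
    rw [← map_natCast e, hmem]
    exact h1
  · exact (hmem _ _).mpr h2
  · change e (y 0) ∉ v.asIdeal.map (e : 𝓞 K₀ →+* 𝓞 K) ^ 2
    rw [hpow, hmem]
    exact h3
  · change e (y (Fin.last d).succ) ∉ v.asIdeal.map (e : 𝓞 K₀ →+* 𝓞 K)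
    rw [hmem]
    exact h4
  · let E : (𝓞 K₀ ⧸ v.asIdeal) ≃+* (𝓞 K ⧸ v.asIdeal.map (e : 𝓞 K₀ →+* 𝓞 K)) :=
      Ideal.quotientEquiv _ _ e rfl
    have hE : ∀ x, E (Ideal.Quotient.mk _ x) = Ideal.Quotient.mk _ (e x) := fun x => rfl
    have h6 : (pol fun i : Fin (d + 1) => Ideal.Quotient.mk v.asIdeal (y i.succ)).map
        (E : (𝓞 K₀ ⧸ v.asIdeal) →+* (𝓞 K ⧸ v.asIdeal.map (e : 𝓞 K₀ →+* 𝓞 K))) =
        pol fun i : Fin (d + 1) => Ideal.Quotient.mk
          (v.asIdeal.map (e : 𝓞 K₀ →+* 𝓞 K)) (e (y i.succ)) := by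
      rw [pol_map]
      rfl
    change Irreducible (pol fun i : Fin (d + 1) => Ideal.Quotient.mk
          (v.asIdeal.map (e : 𝓞 K₀ →+* 𝓞 K)) (e (y i.succ)))
    rw [← h6]
    exact (MulEquiv.irreducible_iff (Polynomial.mapEquiv E)).mpr h5

end transfer

section main

variable {κ : Type} [Fintype κ] [DecidableEq κ]

/-- the exceptional vectors for all number fields with given structure constants -/
def Bs (cd : Σ m : ℕ, (Fin m × Fin m × Fin m → ℤ)) (d M : ℕ) (f : Fin (d + 2) × Fin cd.1 → κ) :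
    Set (κ → ℤ) :=
  {c | ∃ (K : Type) (_ : Field K) (_ : NumberField K) (ω : Module.Basis (Fin cd.1) ℤ (𝓞 K)),
    code ω = cd.2 ∧ ¬ LocGood d M (vec ω d fun q => c (f q))}

theorem pronull_Bs (hC : S_CRIT) (hD : S_CLO) [Nonempty κ]
    (cd : Σ m : ℕ, (Fin m × Fin m × Fin m → ℤ)) (d M : ℕ) (hd : 2 ≤ d)
    (f : Fin (d + 2) × Fin cd.1 → κ) (hf : Function.Injective f) : ProNull (Bs cd d M f) := by
  by_cases hex : ∃ (K : Type) (_ : Field K) (_ : NumberField K)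
      (ω : Module.Basis (Fin cd.1) ℤ (𝓞 K)), code ω = cd.2
  · obtain ⟨K₀, _, _, ω₀, hω₀⟩ := hex
    have h1 := (hD (Fin (d + 2) × Fin cd.1)).2.2.2.2 κ f hf _ (pronull_bad hC hD ω₀ d hd M)
    refine (hD κ).1 _ _ ?_ h1
    rintro c ⟨K, _, _, ω, hω, hn⟩ hgood
    apply hn
    obtain ⟨e, he⟩ := exists_equiv ω₀ ω (hω₀.trans hω.symm)
    have h2 := locGood_transfer e d M _ hgood
    have h3 : (fun i => e (vec ω₀ d (fun q => c (f q)) i)) = vec ω d fun q => c (f q) := by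
      funext i
      unfold vec
      rw [map_sum]
      refine Finset.sum_congr rfl fun j _ => ?_
      rw [map_zsmul, he]
    rwa [h3] at h2
  · have he : Bs cd d M f = ∅ := by
      rw [Set.eq_empty_iff_forall_notMem]
      rintro c ⟨K, i1, i2, ω, hω, -⟩
      exact hex ⟨K, i1, i2, ω, hω⟩
    rw [he]
    exact (hD κ).2.2.1 inferInstance ∅ Set.finite_empty

/-- almost every word is good for all number fields, integral bases, degrees and bounds -/
theorem ae_good (hC : S_CRIT) (hD : S_CLO) (hM : S_MAIN) (hκ : 2 ≤ Fintype.card κ) (W : Walk κ)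
    (v : κ → ℤ) (hv : v ≠ 0) : ∀ᵐ w ∂(words W.m),
    ∀ (cd : Σ m : ℕ, (Fin m × Fin m × Fin m → ℤ)) (d M : ℕ), 2 ≤ d →
      ∀ f : Fin (d + 2) × Fin cd.1 → κ, Function.Injective f →
        Tendsto (fun N : ℕ => (({n : ℕ | n < N ∧ orb W v w n ∈ Bs cd d M f}.ncard : ℕ) : ℝ) /
          (N : ℝ)) atTop (nhds 0) := by
  have : Nonempty κ := Fintype.card_pos_iff.1 (by omega)
  rw [ae_all_iff]
  intro cd
  rw [ae_all_iff]
  intro d
  rw [ae_all_iff]
  intro M
  rw [ae_all_iff]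
  intro hd
  rw [ae_all_iff]
  intro f
  rw [ae_all_iff]
  intro hf
  exact hM κ hκ W v hv _ (pronull_Bs hC hD cd d M hd f hf)

/-- squeezing -/
theorem tendsto_mono {x : ℕ → κ → ℤ} {A B : Set (κ → ℤ)} (h : A ⊆ B)
    (hB : Tendsto (fun N : ℕ => (({n : ℕ | n < N ∧ x n ∈ B}.ncard : ℕ) : ℝ) / (N : ℝ)) atTop
      (nhds 0)) :
    Tendsto (fun N : ℕ => (({n : ℕ | n < N ∧ x n ∈ A}.ncard : ℕ) : ℝ) / (N : ℝ)) atTop
      (nhds 0) := by
  refine tendsto_of_tendsto_of_tendsto_of_le_of_le tendsto_const_nhds hB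
    (fun N => by positivity) (fun N => ?_)
  have h1 : {n : ℕ | n < N ∧ x n ∈ A}.ncard ≤ {n : ℕ | n < N ∧ x n ∈ B}.ncard :=
    Set.ncard_le_ncard (fun n hn => ⟨hn.1, h hn.2⟩)
      ((Set.finite_lt_nat N).subset fun n hn => hn.1)
  have h2 : (({n : ℕ | n < N ∧ x n ∈ A}.ncard : ℕ) : ℝ) ≤
      (({n : ℕ | n < N ∧ x n ∈ B}.ncard : ℕ) : ℝ) := by exact_mod_cast h1
  exact div_le_div_of_nonneg_right h2 (Nat.cast_nonneg N)

end main

end Pool.Agent.N681.HO
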